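import Mathlib
import Pool.Agent.H75.Fav.Walk2

set_option autoImplicit false
open MeasureTheory ProbabilityTheory Filter

/-! Simple symmetric random walk `S` on the integers. `ξU x n` and `ξD x n` are the numbers of
upcrossings and downcrossings of `x` by time `n`, and `ξ* x n` is the larger of the two. Almost
surely there are infinitely many times `n` at which exactly three sites maximise `ξ* · n`. -/

namespace Pool.Agent.Results.MP_cfdc6e_pr.ThreeFavorites

open Pool.Agent.H75.Fav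

theorem result {Ω : Type*} [MeasurableSpace Ω] (μ : Measure Ω) [IsProbabilityMeasure μ]
    (X : ℕ → Ω → ℤ) (hmeas : ∀ n, Measurable (X n)) (hindep : iIndepFun X μ)
    (hup : ∀ n, μ {ω | X n ω = 1} = 1 / 2) (hdown : ∀ n, μ {ω | X n ω = -1} = 1 / 2)
    (S : ℕ → Ω → ℤ) (hS : ∀ n ω, S n ω = ∑ k ∈ Finset.range n, X k ω)
    (ξU ξD : ℤ → ℕ → Ω → ℕ)
    (hU : ∀ x n ω, ξU x n ω =
      ((Finset.Icc 1 n).filter (fun k => S (k - 1) ω = x - 1 ∧ S k ω = x)).card)
    (hD : ∀ x n ω, ξD x n ω =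
      ((Finset.Icc 1 n).filter (fun k => S (k - 1) ω = x + 1 ∧ S k ω = x)).card) :
    ∀ᵐ ω ∂μ, Set.Infinite {n : ℕ |
      Set.ncard {x : ℤ | ∀ y, max (ξU y n ω) (ξD y n ω) ≤ max (ξU x n ω) (ξD x n ω)} = 3} := by
  have hSS : ∀ n ω, S n ω = SS X ω n := hS
  have eU : ∀ x n ω, ξU x n ω = xiU (SS X ω) x n := by
    intro x n ω
    rw [hU]
    unfold xiU
    symm
    apply Finset.card_bij (fun k _ => k + 1)
    · intro k hk
      rw [Finset.mem_filter, Finset.mem_range] at hk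
      rw [Finset.mem_filter, Finset.mem_Icc, Nat.add_sub_cancel, hSS, hSS]
      exact ⟨⟨by omega, by omega⟩, hk.2⟩
    · intro a _ b _ hab
      exact Nat.succ_injective hab
    · intro k hk
      rw [Finset.mem_filter, Finset.mem_Icc, hSS, hSS] at hk
      obtain ⟨⟨h1, h2⟩, h3⟩ := hk
      obtain ⟨j, rfl⟩ : ∃ j, k = j + 1 := ⟨k - 1, by omega⟩
      rw [Nat.add_sub_cancel] at h3
      exact ⟨j, by rw [Finset.mem_filter, Finset.mem_range]; exact ⟨by omega, h3⟩, rfl⟩
  have eD : ∀ x n ω, ξD x n ω = xiD (SS X ω) x n := by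
    intro x n ω
    rw [hD]
    unfold xiD
    symm
    apply Finset.card_bij (fun k _ => k + 1)
    · intro k hk
      rw [Finset.mem_filter, Finset.mem_range] at hk
      rw [Finset.mem_filter, Finset.mem_Icc, Nat.add_sub_cancel, hSS, hSS]
      exact ⟨⟨by omega, by omega⟩, hk.2⟩
    · intro a _ b _ hab
      exact Nat.succ_injective hab
    · intro k hk
      rw [Finset.mem_filter, Finset.mem_Icc, hSS, hSS] at hk
      obtain ⟨⟨h1, h2⟩, h3⟩ := hk
      obtain ⟨j, rfl⟩ : ∃ j, k = j + 1 := ⟨k - 1, by omega⟩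
      rw [Nat.add_sub_cancel] at h3
      exact ⟨j, by rw [Finset.mem_filter, Finset.mem_range]; exact ⟨by omega, h3⟩, rfl⟩
  filter_upwards [three_io (μ := μ) hmeas hindep hup hdown] with ω hω
  have hset : {n : ℕ | Set.ncard {x : ℤ |
      ∀ y, max (ξU y n ω) (ξD y n ω) ≤ max (ξU x n ω) (ξD x n ω)} = 3} =
      {n : ℕ | (fav (SS X ω) n).ncard = 3} := by
    ext n
    have h1 : {x : ℤ | ∀ y, max (ξU y n ω) (ξD y n ω) ≤ max (ξU x n ω) (ξD x n ω)} =
        fav (SS X ω) n := by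
      ext x
      simp only [eU, eD]
      rfl
    show Set.ncard {x : ℤ | ∀ y, max (ξU y n ω) (ξD y n ω) ≤ max (ξU x n ω) (ξD x n ω)} = 3 ↔
      (fav (SS X ω) n).ncard = 3
    rw [h1]
  rw [hset]
  exact Nat.frequently_atTop_iff_infinite.1 hω

end Pool.Agent.Results.MP_cfdc6e_pr.ThreeFavorites
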